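import Mathlib
import Pool.Agent.R126.Ix.Tower

/-!
# Gaps between the mapping index and the cross-index

All definitions (`QG G n` = the poset `Q_n G`, free finite `G`-posets `FreePoset G`, the order
complex `X.Δ.K`, geometric realisation, `IsInd`, `IsXind`) are in `Pool/Agent/R126/Ix/Defs.lean`.

For every nontrivial finite group `G` and all `1 ≤ m < n` there is a finite free `G`-poset `P` with
`ind Δ(P) = m` and `Xind P = n`.
-/

set_option autoImplicit false

namespace Pool.Agent.Results.MP_28f43d_co.AllGaps

open Pool.Agent.R126.Ix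

universe u

theorem result (G : Type u) [Group G] [Fintype G] [Nontrivial G] (m n : ℕ) (hm : 1 ≤ m)
    (hmn : m < n) : ∃ X : FreePoset G, IsInd G X.Δ.K m ∧ IsXind G X.P n := by
  obtain ⟨X, h1, -, h2⟩ := exists_gap G hm hmn
  exact ⟨X, h1, h2⟩

end Pool.Agent.Results.MP_28f43d_co.AllGaps
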